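import Pool.Agent.Helper94.PQ.Stmts

/-!
# Row WSUR: lifting of elements of the first ramification group to the wild inertia group
-/

set_option autoImplicit false

open NumberField
open scoped Classical

namespace PQ30

open BKA PQ Pool.Agent.Helper13.Swan

theorem mem_of_pow {G : Type} [Group G] [Finite G] (N : Subgroup G) [N.Normal] {p : ℕ}
    (hp : p.Prime) (hi : ¬ p ∣ N.index) {g : G} {n : ℕ} (h : g ^ p ^ n = 1) : g ∈ N := by
  rw [← QuotientGroup.eq_one_iff]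
  have h1 : orderOf (g : G ⧸ N) ∣ p ^ n := orderOf_dvd_of_pow_eq_one (by
    rw [← QuotientGroup.mk_pow, h]
    rfl)
  have h2 : orderOf (g : G ⧸ N) ∣ N.index := by
    rw [Subgroup.index_eq_card]
    exact orderOf_dvd_natCard _
  have h3 : Nat.Coprime (p ^ n) N.index :=
    Nat.Coprime.pow_left _ ((Nat.Prime.coprime_iff_not_dvd hp).2 hi)
  rw [← orderOf_eq_one_iff]
  exact Nat.eq_one_of_dvd_coprimes h3 h1 h2

theorem closed_of_mul {G : Type} [Group G] [TopologicalSpace G] [IsTopologicalGroup G]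
    (S : Set G) (U : Subgroup G) (hU : IsOpen (U : Set G))
    (h : ∀ s ∈ S, ∀ u ∈ U, s * u ∈ S) : IsClosed S := by
  rw [← isOpen_compl_iff, isOpen_iff_mem_nhds]
  intro x hx
  have h1 : IsOpen {y : G | x⁻¹ * y ∈ (U : Set G)} := hU.preimage (continuous_const.mul continuous_id)
  refine Filter.mem_of_superset (h1.mem_nhds (by simp)) ?_
  intro y hy hyS
  apply hx
  have h2 := h y hyS (x⁻¹ * y)⁻¹ (U.inv_mem hy)
  have h3 : y * (x⁻¹ * y)⁻¹ = x := by group
  rwa [h3] at h2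

theorem exists_p {F : Type} [Field F] [NumberField F] (v : Pl F) :
    ∃ p : ℕ, p.Prime ∧ (p : 𝓞 F) ∈ v.asIdeal := by
  obtain ⟨p, hc⟩ := CharP.exists (𝓞 F ⧸ v.asIdeal)
  have : Finite (𝓞 F ⧸ v.asIdeal) := Ideal.finiteQuotientOfFreeOfNeBot _ v.ne_bot
  have := v.isPrime
  have : IsDomain (𝓞 F ⧸ v.asIdeal) := Ideal.Quotient.isDomain _
  have : NeZero p := ⟨CharP.char_ne_zero_of_finite (𝓞 F ⧸ v.asIdeal) p⟩
  have hp : p.Prime := (CharP.char_is_prime (𝓞 F ⧸ v.asIdeal) p)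
  refine ⟨p, hp, ?_⟩
  rw [← Ideal.Quotient.eq_zero_iff_mem, map_natCast]
  exact CharP.cast_eq_zero _ _

variable {F : Type} [Field F] [NumberField F]

theorem p_mem {v : Pl F} {𝔓 : Ideal (Zb F)} (hO : Over v 𝔓) {p : ℕ}
    (hp : (p : 𝓞 F) ∈ v.asIdeal) (L : IntermediateField F (AlgebraicClosure F)) :
    (p : 𝓞 L) ∈ under L 𝔓 := by
  have h1 : (p : Zb F) ∈ 𝔓 := (hO.2 (p : 𝓞 F) (p : Zb F) (by simp)).1 hp
  unfold under
  rw [Ideal.mem_comap, map_natCast]
  exact h1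

theorem loc_iff (hT : PQ.ST_TAME) {v : Pl F} {𝔓 : Ideal (Zb F)} (hO : Over v 𝔓) {p : ℕ}
    (hp : p.Prime) (hpv : (p : 𝓞 F) ∈ v.asIdeal) (L : IntermediateField F (AlgebraicClosure F))
    [FiniteDimensional F L] (M : LocM v 𝔓 L) (g : Inr L 𝔓) :
    g ∈ Rk M.base 1 ↔ ∃ n : ℕ, g ^ p ^ n = 1 := by
  have : Finite (Inr L 𝔓) := inferInstance
  let : Fintype (Inr L 𝔓) := Fintype.ofFinite _
  have hw : M.w (p : L) < 1 := by
    have h1 := (M.int (p : 𝓞 L)).2.2 (p_mem hO hpv L)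
    simpa using h1
  obtain ⟨h1, h2, -⟩ := hT L (Inr L 𝔓) M.w M.π M.base p hp hw
  have := Rk_normal M.base 1
  constructor
  · intro hg
    obtain ⟨k, hk⟩ := h1 ⟨g, hg⟩
    exact ⟨k, congrArg Subtype.val hk⟩
  · rintro ⟨n, hn⟩
    exact mem_of_pow _ hp h2 hn

theorem on_mul {L : IntermediateField F (AlgebraicClosure F)} {σ τ : Gal F} {g h : L ≃ₐ[F] L}
    (h1 : On L σ g) (h2 : On L τ h) : On L (σ * τ) (g * h) := by
  intro x
  have e1 : (σ * τ) (x : AlgebraicClosure F) = σ (τ (x : AlgebraicClosure F)) := rfl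
  rw [e1, h2 x, h1 (h x)]
  rfl

theorem on_one (L : IntermediateField F (AlgebraicClosure F)) : On L (1 : Gal F) 1 := fun _ => rfl

theorem on_pow {L : IntermediateField F (AlgebraicClosure F)} {σ : Gal F} {g : L ≃ₐ[F] L}
    (h1 : On L σ g) (n : ℕ) : On L (σ ^ n) (g ^ n) := by
  induction n with
  | zero => simpa using on_one L
  | succ n ih => rw [pow_succ, pow_succ]; exact on_mul ih h1

theorem on_restrict (L : IntermediateField F (AlgebraicClosure F)) [Normal F L] (σ : Gal F) :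
    On L σ (σ.restrictNormal L) := fun x => (AlgEquiv.restrictNormal_commutes σ L x).symm

theorem on_unique {L : IntermediateField F (AlgebraicClosure F)} {σ : Gal F} {g h : L ≃ₐ[F] L}
    (h1 : On L σ g) (h2 : On L σ h) : g = h := by
  ext x
  rw [← h1 x, ← h2 x]

theorem inc_incl {L L' : IntermediateField F (AlgebraicClosure F)} {x y : 𝓞 L} {x' y' : 𝓞 L'}
    (h : ((y : L) : AlgebraicClosure F) - ((x : L) : AlgebraicClosure F) =
      ((y' : L') : AlgebraicClosure F) - ((x' : L') : AlgebraicClosure F)) (𝔓 : Ideal (Zb F))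
    (h' : y' - x' ∈ under L' 𝔓) : y - x ∈ under L 𝔓 := by
  unfold under at h' ⊢
  rw [Ideal.mem_comap] at h' ⊢
  have h1 : inc L (y - x) = inc L' (y' - x') := by
    apply Subtype.ext
    have e1 : ((inc L (y - x) : Zb F) : AlgebraicClosure F) =
        ((y : L) : AlgebraicClosure F) - ((x : L) : AlgebraicClosure F) := rfl
    have e2 : ((inc L' (y' - x') : Zb F) : AlgebraicClosure F) =
        ((y' : L') : AlgebraicClosure F) - ((x' : L') : AlgebraicClosure F) := rfl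
    rw [e1, e2, h]
  rw [h1]
  exact h'

/-- `Ram L 1` in terms of the local model -/
theorem ram_iff (hG : PQ.ST_GRP) {v : Pl F} {𝔓 : Ideal (Zb F)} (hO : Over v 𝔓)
    (L : IntermediateField F (AlgebraicClosure F)) (M : LocM v 𝔓 L) (σ : Gal F) (g : Inr L 𝔓)
    (h : On L σ g) : Ram L 𝔓 1 σ ↔ g ∈ Rk M.base 1 := by
  obtain ⟨-, -, -, -, -, -, -, h8⟩ := hG F v 𝔓 hO
  rw [h8 L 1 σ g h]
  exact M.ram 1 g

theorem inr_of_ram (hG : PQ.ST_GRP) {v : Pl F} {𝔓 : Ideal (Zb F)} (hO : Over v 𝔓)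
    (L : IntermediateField F (AlgebraicClosure F)) (σ : Gal F) (g : L ≃ₐ[F] L)
    (h : On L σ g) (hr : Ram L 𝔓 1 σ) : g ∈ Inr L 𝔓 := by
  obtain ⟨-, -, -, -, -, -, -, h8⟩ := hG F v 𝔓 hO
  rw [h8 L 1 σ g h] at hr
  intro x y hxy
  exact Ideal.pow_le_self (by norm_num) (hr x y hxy)

/-- restriction to a smaller field -/
theorem ram_mono (hG : PQ.ST_GRP) (hF : PQ.ST_FIN) (hT : PQ.ST_TAME) {v : Pl F} {𝔓 : Ideal (Zb F)}
    (hO : Over v 𝔓) {L L' : IntermediateField F (AlgebraicClosure F)} (hL : L ≤ L')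
    (f : FiniteDimensional F L) (f' : FiniteDimensional F L') (n : Normal F L) (n' : Normal F L')
    (σ : Gal F) (h : Ram L' 𝔓 1 σ) : Ram L 𝔓 1 σ := by
  obtain ⟨p, hp, hpv⟩ := exists_p v
  obtain ⟨M⟩ := hF F v 𝔓 hO L f n
  obtain ⟨M'⟩ := hF F v 𝔓 hO L' f' n'
  have o := on_restrict L σ
  have o' := on_restrict L' σ
  have i' := inr_of_ram hG hO L' σ _ o' h
  have i : σ.restrictNormal L ∈ Inr L 𝔓 := by
    intro x y hxy
    let x' : 𝓞 L' := ⟨IntermediateField.inclusion hL x,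
      x.isIntegral_coe.map (IntermediateField.inclusion hL : L →+* L').toIntAlgHom⟩
    let y' : 𝓞 L' := ⟨IntermediateField.inclusion hL y,
      y.isIntegral_coe.map (IntermediateField.inclusion hL : L →+* L').toIntAlgHom⟩
    have e1 : ((x' : L') : AlgebraicClosure F) = ((x : L) : AlgebraicClosure F) := rfl
    have e2 : ((y' : L') : AlgebraicClosure F) = ((y : L) : AlgebraicClosure F) := rfl
    have h1 : (y' : L') = σ.restrictNormal L' (x' : L') := by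
      apply Subtype.ext
      rw [e2, ← o' (x' : L'), e1, o (x : L), hxy]
    exact inc_incl (by rw [e1, e2]) 𝔓 (i' x' y' h1)
  rw [ram_iff hG hO L' M' σ ⟨_, i'⟩ o', loc_iff hT hO hp hpv] at h
  rw [ram_iff hG hO L M σ ⟨_, i⟩ o, loc_iff hT hO hp hpv]
  obtain ⟨k, hk⟩ := h
  refine ⟨k, ?_⟩
  have h1 : (σ.restrictNormal L') ^ p ^ k = 1 := congrArg Subtype.val hk
  have h2 := on_pow o' (p ^ k)
  rw [h1] at h2
  have h3 := on_pow o (p ^ k)
  have h4 : On L (σ ^ p ^ k) 1 := by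
    intro x
    have h5 := h2 (IntermediateField.inclusion hL x)
    exact h5
  exact Subtype.ext (on_unique h3 h4)

theorem exists_exponent {p b c : ℕ} (hb : Nat.Coprime b (p ^ c)) :
    ∃ m : ℕ, b ∣ m ∧ m ≡ 1 [MOD p ^ c] := by
  obtain ⟨m, h1, h2⟩ := Nat.chineseRemainder hb 0 1
  exact ⟨m, (Nat.modEq_zero_iff_dvd).1 h1, h2⟩

/-- the sets of the compactness argument are nonempty -/
theorem nonempty_set (hS : PQ.ST_SUR) (hG : PQ.ST_GRP) (hF : PQ.ST_FIN) (hT : PQ.ST_TAME) {v : Pl F}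
    {𝔓 : Ideal (Zb F)} (hO : Over v 𝔓) {L L' : IntermediateField F (AlgebraicClosure F)}
    (f : FiniteDimensional F L) (f' : FiniteDimensional F L') (n : Normal F L) (n' : Normal F L')
    (g : L ≃ₐ[F] L) (hg : ∀ x y : 𝓞 L, (y : L) = g (x : L) → y - x ∈ under L 𝔓 ^ 2) :
    ∃ σ : Gal F, On L σ g ∧ Ram L' 𝔓 1 σ := by
  obtain ⟨p, hp, hpv⟩ := exists_p v
  obtain ⟨M⟩ := hF F v 𝔓 hO L f n
  obtain ⟨M'⟩ := hF F v 𝔓 hO L' f' n'
  have hgi : g ∈ Inr L 𝔓 := fun x y hxy => Ideal.pow_le_self (by norm_num) (hg x y hxy)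
  have hgr : (⟨g, hgi⟩ : Inr L 𝔓) ∈ Rk M.base 1 := (M.ram 1 ⟨g, hgi⟩).1 hg
  rw [loc_iff hT hO hp hpv] at hgr
  obtain ⟨c, hc⟩ := hgr
  have hc' : g ^ p ^ c = 1 := congrArg Subtype.val hc
  obtain ⟨σ, hσ, hσg⟩ := hS F v 𝔓 hO L f n g hgi
  obtain ⟨-, -, -, -, -, -, h7, -⟩ := hG F v 𝔓 hO
  obtain ⟨h, hh, hσh⟩ := h7 L' n' σ hσ
  have hN : orderOf h ≠ 0 := (orderOf_pos h).ne'
  obtain ⟨a, b, hb, hab⟩ := Nat.exists_eq_pow_mul_and_not_dvd hN p hp.ne_one
  have hbc : Nat.Coprime b (p ^ c) :=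
    (Nat.Coprime.pow_left _ ((Nat.Prime.coprime_iff_not_dvd hp).2 hb)).symm
  obtain ⟨m, hm1, hm2⟩ := exists_exponent hbc
  refine ⟨σ ^ m, ?_, ?_⟩
  · have h1 := on_pow hσg m
    have h2 : g ^ m = g ^ 1 := by
      rw [pow_eq_pow_iff_modEq]
      exact hm2.of_dvd (orderOf_dvd_of_pow_eq_one hc')
    rw [h2, pow_one] at h1
    exact h1
  · have h1 := on_pow hσh m
    have hh' : h ^ m ∈ Inr L' 𝔓 := Subgroup.pow_mem _ hh m
    rw [ram_iff hG hO L' M' (σ ^ m) ⟨_, hh'⟩ h1, loc_iff hT hO hp hpv]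
    refine ⟨a, Subtype.ext ?_⟩
    have h2 : (h ^ m) ^ p ^ a = 1 := by
      rw [← pow_mul]
      apply orderOf_dvd_iff_pow_eq_one.1
      rw [hab, mul_comm m]
      exact Nat.mul_dvd_mul_left _ hm1
    exact h2

/-- the sets of the compactness argument are closed -/
theorem closed_set {𝔓 : Ideal (Zb F)} {L L' : IntermediateField F (AlgebraicClosure F)}
    (hL : L ≤ L') (f' : FiniteDimensional F L') (g : L ≃ₐ[F] L) :
    IsClosed {σ : Gal F | On L σ g ∧ Ram L' 𝔓 1 σ} := by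
  apply closed_of_mul _ L'.fixingSubgroup (IntermediateField.fixingSubgroup_isOpen L')
  rintro σ ⟨h1, h2⟩ u hu
  have hu' : ∀ x ∈ L', u x = x := by
    intro x hx
    exact (IntermediateField.mem_fixingSubgroup_iff L' u).1 hu x hx
  have h3 : ∀ x ∈ L', (σ * u) x = σ x := by
    intro x hx
    have e1 : (σ * u) x = σ (u x) := rfl
    rw [e1, hu' x hx]
  refine ⟨fun x => ?_, fun x y hxy => ?_⟩
  · rw [h3 _ (hL x.2)]
    exact h1 x
  · rw [h3 _ (x : L').2] at hxy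
    exact h2 x y hxy

end PQ30

namespace PQ

open BKA PQ30 Pool.Agent.Helper13.Swan

/-- WSUR -/
theorem wsur (hS : PQ.ST_SUR) (hG : PQ.ST_GRP) (hF : PQ.ST_FIN) (hT : PQ.ST_TAME) : ST_WSUR := by
  intro F _ _ v 𝔓 hO L f n g hg
  let I : Type := {L' : IntermediateField F (AlgebraicClosure F) //
    FiniteDimensional F L' ∧ Normal F L' ∧ L ≤ L'}
  let S : I → Set (Gal F) := fun L' => {σ | On L σ g ∧ Ram L'.1 𝔓 1 σ}
  have : Nonempty I := ⟨⟨L, f, n, le_rfl⟩⟩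
  have : IsGalois F (AlgebraicClosure F) := inferInstance
  have hne : (⋂ i, S i).Nonempty := by
    apply IsCompact.nonempty_iInter_of_directed_nonempty_isCompact_isClosed
    · intro L1 L2
      have := L1.2.1
      have := L2.2.1
      have := L1.2.2.1
      have := L2.2.2.1
      refine ⟨⟨L1.1 ⊔ L2.1, inferInstance, inferInstance, L1.2.2.2.trans le_sup_left⟩, ?_, ?_⟩
      · rintro σ ⟨h1, h2⟩
        exact ⟨h1, ram_mono hG hF hT hO le_sup_left L1.2.1 inferInstance L1.2.2.1 inferInstance σ h2⟩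
      · rintro σ ⟨h1, h2⟩
        exact ⟨h1, ram_mono hG hF hT hO le_sup_right L2.2.1 inferInstance L2.2.2.1 inferInstance σ h2⟩
    · intro L'
      exact nonempty_set hS hG hF hT hO f L'.2.1 n L'.2.2.1 g hg
    · intro L'
      exact (closed_set L'.2.2.2 L'.2.1 g).isCompact
    · intro L'
      exact closed_set L'.2.2.2 L'.2.1 g
  obtain ⟨σ, hσ⟩ := hne
  rw [Set.mem_iInter] at hσ
  refine ⟨σ, ?_, (hσ ⟨L, f, n, le_rfl⟩).1⟩
  intro L1 f1 n1
  have := f
  have := n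
  have := f1
  have := n1
  have h1 := (hσ ⟨L ⊔ L1, inferInstance, inferInstance, le_sup_left⟩).2
  exact ram_mono hG hF hT hO le_sup_right f1 inferInstance n1 inferInstance σ h1

end PQ
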